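import Mathlib
import Pool.Agent.Lib.MP_8a819d_co.LH.AllL
import Pool.Agent.Lib.MP_8a819d_co.LH.AbR
import Pool.Agent.Lib.MP_8a819d_co.LH.CoreC
import Pool.Agent.Lib.MP_8a819d_co.DP.MainDP
import Pool.Agent.Lib.MP_8a819d_co.AT.AbE
import Pool.Agent.Lib.MP_8a819d_co.AT.AbF

/-!
# All sufficiently large trees are simply sequential
-/

set_option autoImplicit false

namespace Pool.Agent.Results.MP_8a819d_co.AllLargeTrees

/-- `G` has a numbering of its vertices and edges by exactly `1, ..., n + m`, every edge having the
absolute difference of the labels of its ends (the conclusion of the frozen statement). -/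
def SimplySequential {n : ℕ} (G : SimpleGraph (Fin n)) : Prop :=
  ∃ F : Fin n ⊕ G.edgeSet → ℕ,
    Function.Injective F ∧
    (∀ (e : G.edgeSet) (u v : Fin n), e.val = s(u, v) →
      F (Sum.inr e) = ((F (Sum.inl u) : ℤ) - (F (Sum.inl v) : ℤ)).natAbs) ∧
    Set.range F = Set.Icc 1 (n + Nat.card G.edgeSet)

/-- There is `n₀` such that every tree with at least `n₀` vertices is simply sequential. There is no
condition on the shape or on the degrees of the tree. -/
theorem result : ∃ n₀ : ℕ, ∀ (n : ℕ) (G : SimpleGraph (Fin n)), n₀ ≤ n → G.IsTree →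
    SimplySequential G :=
  SSB.all_large (SSB.coreLH_of SSB.absR) (SSB.coreDP SSB.absE1 SSB.absF2)

end Pool.Agent.Results.MP_8a819d_co.AllLargeTrees
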