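import Mathlib
import Pool.Agent.Lib.MP_8a819d_co.S6

/-!
# Trees with few internal vertices are simply sequential
-/

set_option autoImplicit false

namespace Pool.Agent.Results.MP_8a819d_co.FewInternalVertices

/-- `G` has a numbering of its vertices and edges by exactly `1, ..., n + m`, every edge having the
absolute difference of the labels of its ends (the conclusion of the frozen statement). -/
def SimplySequential {n : ℕ} (G : SimpleGraph (Fin n)) : Prop :=
  ∃ F : Fin n ⊕ G.edgeSet → ℕ,
    Function.Injective F ∧
    (∀ (e : G.edgeSet) (u v : Fin n), e.val = s(u, v) →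
      F (Sum.inr e) = ((F (Sum.inl u) : ℤ) - (F (Sum.inl v) : ℤ)).natAbs) ∧
    Set.range F = Set.Icc 1 (n + Nat.card G.edgeSet)

/-- the number of internal vertices (at least two neighbours) -/
noncomputable def internal {n : ℕ} (G : SimpleGraph (Fin n)) : ℕ :=
  {v | 2 ≤ (G.neighborSet v).ncard}.ncard

/-- the number of leaves (exactly one neighbour) -/
noncomputable def leaves {n : ℕ} (G : SimpleGraph (Fin n)) : ℕ :=
  {v | (G.neighborSet v).ncard = 1}.ncard

/-- the number of leaves adjacent to `r` -/
noncomputable def leavesAt {n : ℕ} (G : SimpleGraph (Fin n)) (r : Fin n) : ℕ :=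
  {v | G.Adj r v ∧ (G.neighborSet v).ncard = 1}.ncard

/-- Let `G` be a tree with `N` internal vertices. If some vertex is adjacent to at least `1024 N^4`
leaves, in particular if `G` has at least `1024 N^5` leaves, then `G` is simply sequential. -/
theorem result {n : ℕ} (G : SimpleGraph (Fin n)) (hG : G.IsTree)
    (h : (∃ r : Fin n, 1024 * internal G ^ 4 ≤ leavesAt G r) ∨ 1024 * internal G ^ 5 ≤ leaves G) :
    SimplySequential G := by
  rcases h with ⟨r, hr⟩ | hL
  · exact SSq.main_one hG r hr
  · exact SSq.main_two hG hL

end Pool.Agent.Results.MP_8a819d_co.FewInternalVertices
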